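import Pool.Agent.Run7.h846.Main

/-!
# Arithmetic surjectivity and sections for superelliptic families with split branch locus

`K` is a number field and `R` a finitely generated `K`-algebra which is a domain, with fraction field
`F`.  The base of the family is an open subset of the affine line over `Spec R`; `s` is the coordinate
of the line.  For `h ∈ R[s]` and `f ∈ R[s][x]` monic in `x` of degree `n`, we consider the family of
superelliptic curves `h(s) y ^ m = f(s, x)`.
-/

set_option autoImplicit false

namespace Pool.Agent.Results.MP_2fb91c_nt.SplitSuperelliptic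

open Polynomial

/-- The smooth projective model of the curve `h(s) y ^ m = f(s, x)` over the point `(φ, s)` of the
base, with values in the field `L`, has an `L`-rational point: an affine point `(x, y)`, or a point at
infinity.  The points at infinity of `t y ^ m = g(x)`, `g` monic and separable of degree `n`, `t ≠ 0`,
are given by the solutions `u` of `t u ^ d = 1`, `d = gcd (m, n)`. -/
def FibrePoint {R L : Type} [CommRing R] [Field L] (m : ℕ) (h : R[X]) (f : R[X][X]) (φ : R →+* L)
    (s : L) : Prop :=
  (∃ x y : L, h.eval₂ φ s * y ^ m = (f.map (eval₂RingHom φ s)).eval x) ∨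
    ∃ u : L, h.eval₂ φ s * u ^ Nat.gcd m f.natDegree = 1

/-- The family is arithmetically surjective over the open subset `z ≠ 0` of the affine line over
`Spec R`: for every finite extension `L` of `K`, every `L`-point of this open subset lifts. -/
def ArithSurj (K R : Type) [Field K] [CommRing R] [Algebra K R] (m : ℕ) (h : R[X]) (f : R[X][X])
    (z : R[X]) : Prop :=
  ∀ (L : Type) [Field L] [Algebra K L] [FiniteDimensional K L] (φ : R →ₐ[K] L) (s : L),
    z.eval₂ (φ : R →+* L) s ≠ 0 → FibrePoint m h f (φ : R →+* L) s

/-- **Arithmetic surjectivity and sections.**  Suppose that `f` splits into linear factors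
`x - θ_i(s)` with `θ_i` in `F̄[s]`, that a prime `q` divides `m` and the degree of `f`, and that for
some `c ∈ R` the order of vanishing of `h` at `s = c` is prime to `q` and `f(c, x)` is separable over
the fraction field `F` of `R`.  Then the family `h(s) y ^ m = f(s, x)` is arithmetically surjective
over some nonempty open subset of the affine line over `Spec R` if and only if `f` has a root in
`F[s]`, which is a section `(x, y) = (θ(s), 0)`. -/
theorem result (K : Type) [Field K] [NumberField K] (R : Type) [CommRing R] [IsDomain R]
    [Algebra K R] [Algebra.FiniteType K R] (m q : ℕ) (hm : 0 < m) (hq : q.Prime) (hqm : q ∣ m)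
    (h : R[X]) (f : R[X][X]) (hf : f.Monic) (hn : 3 ≤ f.natDegree) (hqn : q ∣ f.natDegree)
    (hsplit : (f.map (mapRingHom (algebraMap R (AlgebraicClosure (FractionRing R))))).Splits)
    (c : R) (hh : h ≠ 0) (hc : ¬ q ∣ h.rootMultiplicity c)
    (hsep : ((f.map (evalRingHom c)).map (algebraMap R (FractionRing R))).Separable) :
    (∃ z : R[X], z ≠ 0 ∧ ArithSurj K R m h f z) ↔
      ∃ θ : (FractionRing R)[X],
        (f.map (mapRingHom (algebraMap R (FractionRing R)))).eval θ = 0 := by
  constructor
  · rintro ⟨z, hz, hs⟩
    exact Run7.h846.main K R m q hq hqm h f hf hn hqn hsplit c hh hc hsep z hz hs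
  · rintro ⟨θ, hθ⟩
    classical
    -- clear denominators
    obtain ⟨⟨b, hb⟩, hbθ⟩ := IsLocalization.exist_integer_multiples (nonZeroDivisors R) θ.support
      (fun i => θ.coeff i)
    have hb0 : b ≠ 0 := nonZeroDivisors.ne_zero hb
    have hlift : C (algebraMap R (FractionRing R) b) * θ ∈ lifts (algebraMap R (FractionRing R)) := by
      rw [lifts_iff_coeff_lifts]
      intro i
      rw [coeff_C_mul]
      by_cases hi : i ∈ θ.support
      · obtain ⟨a, ha⟩ := hbθ i hi
        exact ⟨a, by rw [ha]; exact Algebra.smul_def b _⟩
      · rw [notMem_support_iff.1 hi, mul_zero]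
        exact ⟨0, map_zero _⟩
    obtain ⟨θ₀, hθ₀⟩ := (mem_lifts _).1 hlift
    refine ⟨C b, by rw [Ne, C_eq_zero]; exact hb0, ?_⟩
    intro L _ _ _ φ s hz
    rw [eval₂_C] at hz
    left
    let ev : R[X] →+* L := eval₂RingHom (φ : R →+* L) s
    -- the polynomial identity in `R[s]`
    have h1 : (f.scaleRoots (C b)).eval θ₀ = 0 := by
      have hinj : Function.Injective (mapRingHom (algebraMap R (FractionRing R))) :=
        Polynomial.map_injective _ (IsFractionRing.injective R (FractionRing R))
      apply hinj
      rw [map_zero, ← eval₂_at_apply]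
      have h2 : mapRingHom (algebraMap R (FractionRing R)) θ₀ =
          mapRingHom (algebraMap R (FractionRing R)) (C b) * θ := by
        show θ₀.map _ = (C b).map _ * θ
        rw [hθ₀, map_C]
      rw [h2, scaleRoots_eval₂_mul, ← eval_map, hθ, mul_zero]
    have hev : ev (C b) = φ b := by
      show eval₂ (φ : R →+* L) s (C b) = _
      rw [eval₂_C]
      rfl
    have hb' : ev (C b) ≠ 0 := by
      rw [hev]
      exact hz
    refine ⟨ev θ₀ / ev (C b), 0, ?_⟩
    rw [zero_pow hm.ne', mul_zero]
    have h2 : eval₂ ev (ev (C b) * (ev θ₀ / ev (C b))) (f.scaleRoots (C b)) = 0 := by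
      rw [mul_div_cancel₀ _ hb', eval₂_at_apply, h1, map_zero]
    rw [scaleRoots_eval₂_mul] at h2
    rw [eval_map]
    rcases mul_eq_zero.1 h2 with h3 | h3
    · exact absurd h3 (pow_ne_zero _ hb')
    · exact h3.symm

end Pool.Agent.Results.MP_2fb91c_nt.SplitSuperelliptic
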